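import Pool.Agent.H98.BQ.Main

/-!
# Bohr sets in `2A - 2A` with `O(log^2(1/α) log log(1/α))` frequencies

Let `A ⊆ ℤ/N` have density `α ≤ 1/2`. Then `2A - 2A` contains a Bohr set with at most
`C log^2(1/α) log(2 + log(1/α))` frequencies and radius at least `c / log(1/α)`; if `A` has additive
energy at least `|A|^3 / K`, then `C (log(1/α) + log^2(2K) log^3(2 + log K))` frequencies are enough.

`E(A) = A.addEnergy A` is the number of `(a, b, c, d) ∈ A^4` with `a + b = c + d`; it is at least
`|A|^3 / K` when `|A + A| ≤ K |A|` or `|A - A| ≤ K |A|`. `2 • A` is the sumset `A + A`.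

Proof. Let `B = A + A`. Let `σ_0` be the uniform law on `A` and let `σ_(i+1)` be the law with weights
proportional to `exp (q P(x + S_i ∈ B))`, where `S_i` has the law `σ_i` and `q` is about
`log(1/α)` (respectively `log K log log K`). By Gibbs' variational principle the numbers
`H(σ_i) + log ∑_x exp (q P(x + S_i ∈ B))` do not decrease, so `x + S_i ∈ B` has probability close
to one for `x = S_(i+1)`, for all `i`: all steps take place in the same set `B`. Let `T` be a random
element of `A`. If one is given `m` samples `S_i + T`, then the entropy of `T` decreases at most by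
`m (H(S_i + T) - H(S_i))` in the mean, and, conditionally on the samples, the entropy of
`S_(i+1) - T` is at most `H(S_(i+1)) + q^2/m` in the mean. So with `m = q, 2q, 4q, …, q^2` each
step costs `O(q^2)`, and after `O(log q)` steps one has `H(S - T) ≤ H(S) + 1/16` for some `T` with
`H(T) ≥ log |A| - O(q^2 log q)` and some `S` such that `P(S + S' ∈ B) ≥ 3/4` holds for all values
of `S`; hence the translates of the support of `S` by the Bohr set of the large spectrum of `T`
meet this support. An entropic version of Chang's theorem bounds the number of frequencies.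
See `Pool/Agent/H98/BQ` and `Pool/Agent/H98/BG`.
-/

set_option autoImplicit false

namespace Pool.Agent.Results.MP_169871_nt.QuadraticFrequencies

open Finset
open scoped Pointwise

/-- the distance from `γ x / N` to the nearest integer -/
noncomputable def dist {N : ℕ} (γ x : ZMod N) : ℝ :=
  |((γ * x).val : ℝ) / N - (round (((γ * x).val : ℝ) / N) : ℤ)|

/-- from characters to frequencies -/
theorem freq (c : ℝ) (hc : 0 < c) (N : ℕ) [NeZero N] (A S : Finset (ZMod N)) (hA : A.Nonempty)
    (hα : (A.card : ℝ) / N ≤ 1 / 2) (Γ0 : Finset (AddChar (ZMod N) ℂ))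
    (hΓ : ∀ y : ZMod N, (∀ χ ∈ Γ0, ‖χ y - 1‖ ≤ c / Real.log (2 * N / A.card)) → y ∈ S) :
    ∃ Γ : Finset (ZMod N), (Γ.card : ℝ) ≤ Γ0.card ∧
      ∀ x : ZMod N, (∀ γ ∈ Γ, dist γ x ≤ c / (4 * Real.pi) / Real.log (N / A.card)) → x ∈ S := by
  have hN : 0 < N := Nat.pos_of_ne_zero (NeZero.ne N)
  have hN' : (0 : ℝ) < N := by exact_mod_cast hN
  have hcA : (0 : ℝ) < A.card := by exact_mod_cast hA.card_pos
  have hl2 : 0 < Real.log 2 := Real.log_pos (by norm_num)
  have h2 : (2 : ℝ) ≤ N / A.card := by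
    rw [le_div_iff₀ hcA]
    rw [div_le_iff₀ hN'] at hα
    linarith
  have hlog : Real.log 2 ≤ Real.log (N / A.card) := Real.log_le_log (by norm_num) h2
  have hlog2 : Real.log (2 * N / A.card) = Real.log 2 + Real.log (N / A.card) := by
    rw [mul_div_assoc, Real.log_mul (by norm_num) (by positivity)]
  have hL : Real.log (2 * N / A.card) ≤ 2 * Real.log (N / A.card) := by linarith
  classical
  choose g hg using Pool.Agent.H98.BG.znc N hN
  refine ⟨Γ0.image g, by exact_mod_cast Finset.card_image_le, ?_⟩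
  intro x hx
  apply hΓ
  intro χ hχ
  have h3 := hx (g χ) (Finset.mem_image_of_mem g hχ)
  have h4 : ‖χ x - 1‖ ≤ 2 * Real.pi * dist (g χ) x := hg χ x
  have h5 : 2 * Real.pi * dist (g χ) x ≤
      2 * Real.pi * (c / (4 * Real.pi) / Real.log (N / A.card)) :=
    mul_le_mul_of_nonneg_left h3 (by positivity)
  have h6 : 2 * Real.pi * (c / (4 * Real.pi) / Real.log (N / A.card)) =
      c / (2 * Real.log (N / A.card)) := by
    have := Real.pi_pos.ne'
    have : Real.log (N / A.card) ≠ 0 := by linarith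
    field_simp
    norm_num
  rw [h6] at h5
  refine h4.trans (h5.trans ?_)
  exact div_le_div_of_nonneg_left hc.le (by linarith) hL

/-- There are `C, c > 0` such that for all `N ≥ 1` and every nonempty `A ⊆ ℤ/N` of density
`α = |A|/N ≤ 1/2` the following holds. (1) `2A - 2A` contains a Bohr set with at most
`C log^2(1/α) log(2 + log(1/α))` frequencies and radius at least `c / log(1/α)`. (2) For every
`K ≥ 1` with `E(A) ≥ |A|^3 / K` it contains a Bohr set with at most
`C (log(1/α) + log^2(2K) log^3(2 + log K))` frequencies and radius at least `c / log(1/α)`. -/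
theorem result : ∃ C c : ℝ, 0 < C ∧ 0 < c ∧
    ∀ (N : ℕ) [NeZero N] (A : Finset (ZMod N)), A.Nonempty → (A.card : ℝ) / N ≤ 1 / 2 →
      (∃ (Γ : Finset (ZMod N)) (ε : ℝ),
        (Γ.card : ℝ) ≤
          C * (Real.log (N / A.card) ^ 2 * Real.log (2 + Real.log (N / A.card))) ∧
        c / Real.log (N / A.card) ≤ ε ∧
        ∀ x : ZMod N, (∀ γ ∈ Γ, dist γ x ≤ ε) → x ∈ 2 • A - 2 • A) ∧
      ∀ K : ℝ, 1 ≤ K → (A.card : ℝ) ^ 3 ≤ K * (A.addEnergy A : ℕ) →
        ∃ (Γ : Finset (ZMod N)) (ε : ℝ),
          (Γ.card : ℝ) ≤ C * (Real.log (N / A.card) +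
            Real.log (2 * K) ^ 2 * Real.log (2 + Real.log K) ^ 3) ∧
          c / Real.log (N / A.card) ≤ ε ∧
          ∀ x : ZMod N, (∀ γ ∈ Γ, dist γ x ≤ ε) → x ∈ 2 • A - 2 • A := by
  obtain ⟨C1, c1, hC1, hc1, h1⟩ := Pool.Agent.H98.BQ.dense Pool.Agent.H98.BQ.fgdMain
  obtain ⟨C2, c2, hC2, hc2, h2⟩ := Pool.Agent.H98.BQ.energy Pool.Agent.H98.BQ.fgkMain
  set c : ℝ := min c1 c2 / (4 * Real.pi) with hcdef
  have hc : 0 < min c1 c2 := lt_min hc1 hc2
  refine ⟨4 * C1 + 2 * C2, c, by positivity, by positivity, ?_⟩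
  intro N _ A hA hα
  have hN : 0 < N := Nat.pos_of_ne_zero (NeZero.ne N)
  have hN' : (0 : ℝ) < N := by exact_mod_cast hN
  have hcA : (0 : ℝ) < A.card := by exact_mod_cast hA.card_pos
  have hl2 : 0 < Real.log 2 := Real.log_pos (by norm_num)
  have h22 : (2 : ℝ) ≤ N / A.card := by
    rw [le_div_iff₀ hcA]
    rw [div_le_iff₀ hN'] at hα
    linarith
  have hlog : Real.log 2 ≤ Real.log (N / A.card) := Real.log_le_log (by norm_num) h22
  have hlog2 : Real.log (2 * N / A.card) = Real.log 2 + Real.log (N / A.card) := by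
    rw [mul_div_assoc, Real.log_mul (by norm_num) (by positivity)]
  have hL : Real.log (2 * N / A.card) ≤ 2 * Real.log (N / A.card) := by linarith
  have hL0 : 0 < Real.log (2 * N / A.card) := by linarith
  have hM0 : 0 ≤ Real.log (2 + Real.log (N / A.card)) := Real.log_nonneg (by linarith)
  refine ⟨?_, ?_⟩
  · obtain ⟨Γ0, hΓc, hΓ⟩ := h1 (ZMod N) A hA
    rw [ZMod.card] at hΓc hΓ
    obtain ⟨Γ, hΓ1, hΓ2⟩ := freq (min c1 c2) hc N A (2 • A - 2 • A) hA hα Γ0
      (fun y hy => hΓ y fun χ hχ => (hy χ hχ).trans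
        (div_le_div_of_nonneg_right (min_le_left _ _) hL0.le))
    refine ⟨Γ, c / Real.log (N / A.card), ?_, le_rfl, hΓ2⟩
    refine hΓ1.trans (hΓc.trans ?_)
    have h6 : Real.log (2 * N / A.card) ^ 2 * Real.log (2 + Real.log (N / A.card)) ≤
        (2 * Real.log (N / A.card)) ^ 2 * Real.log (2 + Real.log (N / A.card)) :=
      mul_le_mul_of_nonneg_right (pow_le_pow_left₀ hL0.le hL 2) hM0
    have h7 := mul_le_mul_of_nonneg_left h6 hC1.le
    have h8 : 0 ≤ 2 * C2 * (Real.log (N / A.card) ^ 2 * Real.log (2 + Real.log (N / A.card))) := by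
      positivity
    linarith
  · intro K hK hE
    obtain ⟨Γ0, hΓc, hΓ⟩ := h2 (ZMod N) A K hA hK hE
    rw [ZMod.card] at hΓc hΓ
    obtain ⟨Γ, hΓ1, hΓ2⟩ := freq (min c1 c2) hc N A (2 • A - 2 • A) hA hα Γ0
      (fun y hy => hΓ y fun χ hχ => (hy χ hχ).trans
        (div_le_div_of_nonneg_right (min_le_right _ _) hL0.le))
    refine ⟨Γ, c / Real.log (N / A.card), ?_, le_rfl, hΓ2⟩
    refine hΓ1.trans (hΓc.trans ?_)
    have hlK : 0 ≤ Real.log K := Real.log_nonneg hK
    have hMK : 0 ≤ Real.log (2 + Real.log K) := Real.log_nonneg (by linarith)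
    have h9 : 0 ≤ Real.log (2 * K) ^ 2 * Real.log (2 + Real.log K) ^ 3 := by positivity
    have h7 : C2 * (Real.log (2 * N / A.card) +
        Real.log (2 * K) ^ 2 * Real.log (2 + Real.log K) ^ 3) ≤
        2 * C2 * (Real.log (N / A.card) +
        Real.log (2 * K) ^ 2 * Real.log (2 + Real.log K) ^ 3) := by
      nlinarith
    have h8 : 0 ≤ 4 * C1 * (Real.log (N / A.card) +
        Real.log (2 * K) ^ 2 * Real.log (2 + Real.log K) ^ 3) := by
      have : 0 ≤ Real.log ((N : ℝ) / A.card) := by linarith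
      positivity
    linarith

end Pool.Agent.Results.MP_169871_nt.QuadraticFrequencies
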